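import Pool.Agent.MP_826def_gt.PP.All

namespace Pool.Agent.Results.MP_826def_gt.LogRateAll

open Pool.Agent.MP_826def_gt Pool.Agent.MP_826def_gt.H44

theorem result : ∀ r p : ℕ, 2 ≤ r → p.Prime → ∃ C : ℝ,
    ∀ (G : Type) [Group G] [Fintype G], p ∣ Fintype.card G → ∀ n : ℕ, 1 ≤ n →
      |(alpha G r n : ℝ) - (n : ℝ) / (r : ℝ)| ≤ C * (1 + Real.log n) :=
  PP.rate_dvd PP.rateAll

end Pool.Agent.Results.MP_826def_gt.LogRateAll
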