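import Pool.Agent.MP_826def_gt.H44.Up

namespace Pool.Agent.Results.MP_826def_gt.NonPeriodic

open Pool.Agent.MP_826def_gt.H44 Filter Topology

theorem result : ∀ (G : Type) [Group G] [Fintype G] (p : ℕ), p.Prime →
    (∃ φ : Multiplicative (ZMod p × ZMod p) →* G, Function.Injective φ) → ∀ r : ℕ, 2 ≤ r →
    (∀ k : ℕ, TC r (BG G k) = ((r * k : ℕ) : ℕ∞)) ∧
      Tendsto (fun n : ℕ => (alpha G r n : ℝ) / (n : ℝ)) atTop (𝓝 (1 / (r : ℝ))) := by
  classical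
  rintro G _ _ p hp ⟨φ, hφ⟩ r hr
  have := Fact.mk hp
  exact ⟨tc_eq φ hφ hr, by simpa only [alpha_eq φ hφ hr] using div_lim hr⟩

end Pool.Agent.Results.MP_826def_gt.NonPeriodic
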